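import Pool.Agent.Helper73.T5.Sid

/-!
# T5: abstract static families (`SFam`, `SAdm`)

`SFam p a U`: what the static levels need of the set `U` of values of one family.  Instances: the
primes `y` with `y ^ 2 < p ^ a` (`sfam_primes`), and the Erdős–Turán family `sU p a` (`sfam_sU`),
which loses no logarithm.
-/

set_option autoImplicit false

namespace Pool.Agent.Helper73.T5

open Finset Pool.Agent.Helper27.T4 Pool.Agent.Helper3.T4 Pool.Agent.Helper22.HW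
  Pool.Agent.Helper41.T5

/-- the values of one static family -/
structure SFam (p a : ℕ) (U : Finset ℕ) : Prop where
  cop : ∀ y ∈ U, y.Coprime p
  lt : ∀ y ∈ U, y < p ^ (a + 1)
  sum : ∀ N : ZMod (p ^ a), ((U ×ˢ U).filter (fun z => Lg p a z.1 + Lg p a z.2 = N)).card ≤
    2 * (p - 1)
  sgl : ∀ N : ZMod (p ^ a), (U.filter (fun z => Lg p a z = N)).card ≤ p - 1
  dif : DifLe (Lg p a) U (p - 1)
  crd : U.card ≤ Nat.sqrt (p ^ a)

theorem SFam.pairs {p a : ℕ} {U : Finset ℕ} (h : SFam p a U) (t : ZMod (p ^ a))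
    (S : Finset (ℕ × ℕ)) (hS : ∀ q ∈ S, q.1 ∈ U ∧ q.2 ∈ U ∧ Lg p a q.1 + Lg p a q.2 = t) :
    S.card ≤ 2 * (p - 1) := by
  refine (card_le_card ?_).trans (h.sum t)
  intro q hq
  obtain ⟨h1, h2, h3⟩ := hS q hq
  rw [mem_filter, mem_product]
  exact ⟨⟨h1, h2⟩, h3⟩

theorem SFam.single {p a : ℕ} {U : Finset ℕ} (h : SFam p a U) (t : ZMod (p ^ a))
    (S : Finset ℕ) (hS : ∀ q ∈ S, q ∈ U ∧ Lg p a q = t) : S.card ≤ p - 1 := by
  refine (card_le_card ?_).trans (h.sgl t)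
  intro q hq
  obtain ⟨h1, h3⟩ := hS q hq
  rw [mem_filter]
  exact ⟨h1, h3⟩

theorem SFam.card_sub {p a : ℕ} {U : Finset ℕ} (h : SFam p a U)
    (S : Finset ℕ) (hS : ∀ q ∈ S, q ∈ U) : S.card ≤ Nat.sqrt (p ^ a) :=
  (card_le_card hS).trans h.crd

theorem SFam.card_sq {p a : ℕ} {U : Finset ℕ} (h : SFam p a U) : U.card ^ 2 ≤ p ^ a :=
  (Nat.pow_le_pow_left h.crd 2).trans (Nat.sqrt_le' _)

theorem SFam.card_le {p a : ℕ} {U : Finset ℕ} (h : SFam p a U) : U.card ≤ p ^ a :=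
  h.crd.trans (Nat.sqrt_le_self _)

/-- subfamilies -/
theorem SFam.mono {p a : ℕ} {U V : Finset ℕ} (h : SFam p a U) (hV : V ⊆ U) : SFam p a V := by
  refine ⟨fun y hy => h.cop y (hV hy), fun y hy => h.lt y (hV hy),
    fun N => (card_le_card (filter_subset_filter _ (product_subset_product hV hV))).trans (h.sum N),
    fun N => (card_le_card (filter_subset_filter _ hV)).trans (h.sgl N), fun δ => ?_,
    (card_le_card hV).trans h.crd⟩
  exact (card_le_card (filter_subset_filter _ (product_subset_product hV hV))).trans (h.dif δ)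

/-- differences of the indices of primes -/
theorem difLe_primes {p : ℕ} (hp : p.Prime) (hp2 : p ≠ 2) (a : ℕ) (U : Finset ℕ)
    (hU : ∀ x ∈ U, x.Prime ∧ x.Coprime p ∧ x ^ 2 < p ^ a) : DifLe (Lg p a) U (p - 1) := by
  classical
  intro δ
  set D := (U ×ˢ U).filter (fun z => z.1 ≠ z.2 ∧ Lg p a z.1 - Lg p a z.2 = δ) with hD
  have hpa : 0 < p ^ (a + 1) := pow_pos hp.pos _
  have hne : NeZero (p ^ (a + 1)) := ⟨hpa.ne'⟩
  have hun : ∀ x ∈ U, IsUnit (x : ZMod (p ^ (a + 1))) := fun x hx => by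
    rw [ZMod.isUnit_iff_coprime]
    exact Nat.Coprime.pow_right _ (hU x hx).2.1
  set f : ℕ × ℕ → ℕ := fun z =>
    (((z.1 : ℕ) : ZMod (p ^ (a + 1))) * ((z.2 : ℕ) : ZMod (p ^ (a + 1)))⁻¹).val with hf
  have hlt : ∀ x ∈ U, ∀ y ∈ U, x * y < p ^ (a + 1) := by
    intro x hx y hy
    have h1 := (hU x hx).2.2
    have h2 := (hU y hy).2.2
    have h3 : (x * y) ^ 2 < (p ^ a) ^ 2 := by
      rw [mul_pow, sq (p ^ a)]
      exact Nat.mul_lt_mul'' h1 h2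
    have h4 : x * y < p ^ a := lt_of_pow_lt_pow_left₀ 2 (Nat.zero_le _) h3
    exact h4.trans_le (Nat.pow_le_pow_right hp.pos (Nat.le_succ a))
  have hinj : Set.InjOn f D := by
    intro z hz z' hz' hzz
    rw [mem_coe, hD, mem_filter, mem_product] at hz hz'
    simp only [hf] at hzz
    have e1 := ZMod.val_injective _ hzz
    have u2 := hun _ hz.1.2
    have u2' := hun _ hz'.1.2
    have e2 : ((z.1 * z'.2 : ℕ) : ZMod (p ^ (a + 1))) = ((z'.1 * z.2 : ℕ) : ZMod (p ^ (a + 1))) := by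
      push_cast
      have i2 : ((z.2 : ℕ) : ZMod (p ^ (a + 1)))⁻¹ * (z.2 : ZMod (p ^ (a + 1))) = 1 :=
        ZMod.inv_mul_of_unit _ u2
      have i2' : ((z'.2 : ℕ) : ZMod (p ^ (a + 1)))⁻¹ * (z'.2 : ZMod (p ^ (a + 1))) = 1 :=
        ZMod.inv_mul_of_unit _ u2'
      calc (z.1 : ZMod (p ^ (a + 1))) * (z'.2 : ZMod (p ^ (a + 1)))
          = ((z.1 : ZMod (p ^ (a + 1))) * (z.2 : ZMod (p ^ (a + 1)))⁻¹) *
            ((z.2 : ZMod (p ^ (a + 1))) * (z'.2 : ZMod (p ^ (a + 1)))) := by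
            linear_combination (-(z.1 : ZMod (p ^ (a + 1))) * (z'.2 : ZMod (p ^ (a + 1)))) * i2
        _ = ((z'.1 : ZMod (p ^ (a + 1))) * (z'.2 : ZMod (p ^ (a + 1)))⁻¹) *
            ((z.2 : ZMod (p ^ (a + 1))) * (z'.2 : ZMod (p ^ (a + 1)))) := by rw [e1]
        _ = _ := by
            linear_combination ((z'.1 : ZMod (p ^ (a + 1))) * (z.2 : ZMod (p ^ (a + 1)))) * i2'
    have e3 : z.1 * z'.2 = z'.1 * z.2 := by
      have e4 := (ZMod.natCast_eq_natCast_iff _ _ _).1 e2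
      exact Nat.ModEq.eq_of_lt_of_lt e4 (hlt _ hz.1.1 _ hz'.1.2) (hlt _ hz'.1.1 _ hz.1.2)
    have p1 := (hU _ hz.1.1).1
    have p2 := (hU _ hz.1.2).1
    have p1' := (hU _ hz'.1.1).1
    have e5 : z.1 = z'.1 := by
      have h1 : z.1 ∣ z'.1 * z.2 := by rw [← e3]; exact dvd_mul_right _ _
      rcases (Nat.Prime.dvd_mul p1).1 h1 with h2 | h2
      · exact (Nat.prime_dvd_prime_iff_eq p1 p1').1 h2
      · exact absurd ((Nat.prime_dvd_prime_iff_eq p1 p2).1 h2) hz.2.1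
    have e6 : z.2 = z'.2 := by
      rw [e5] at e3
      exact (Nat.eq_of_mul_eq_mul_left p1'.pos e3).symm
    exact Prod.ext e5 e6
  have hdl : ∀ z ∈ D, f z ∈ (range (p ^ (a + 1))).filter
      (fun m => m.Coprime p ∧ Lg p a m = δ) := by
    intro z hz
    rw [hD, mem_filter, mem_product] at hz
    rw [mem_filter, mem_range]
    have u1 := hun _ hz.1.1
    have u2 := hun _ hz.1.2
    have hfv : ((f z : ℕ) : ZMod (p ^ (a + 1))) =
        ((z.1 : ℕ) : ZMod (p ^ (a + 1))) * ((z.2 : ℕ) : ZMod (p ^ (a + 1)))⁻¹ := by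
      simp only [hf]
      rw [ZMod.natCast_zmod_val]
    have hmul : (((f z * z.2 : ℕ)) : ZMod (p ^ (a + 1))) = ((z.1 : ℕ) : ZMod (p ^ (a + 1))) := by
      rw [Nat.cast_mul, hfv, mul_assoc, ZMod.inv_mul_of_unit _ u2, mul_one]
    have hco : (f z).Coprime p := by
      have h1 : IsUnit (((f z : ℕ)) : ZMod (p ^ (a + 1))) := by
        rw [hfv]
        exact u1.mul (by
          have := ZMod.mul_inv_of_unit _ u2
          exact IsUnit.of_mul_eq_one_right _ this)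
      rw [ZMod.isUnit_iff_coprime] at h1
      exact Nat.Coprime.coprime_dvd_right (dvd_pow_self p (Nat.succ_ne_zero a)) h1
    refine ⟨ZMod.val_lt _, hco, ?_⟩
    have h2 := Lg_congr a _ _ hmul
    rw [Lg_mul hp hp2 a _ _ hco (hU _ hz.1.2).2.1] at h2
    rw [← hz.2.2, ← h2, add_sub_cancel_right]
  exact (card_le_card_of_injOn f hdl hinj).trans (card_Lg_le hp hp2 a δ)

/-- the primes `y` with `y ^ 2 < p ^ a` -/
theorem sfam_primes {p : ℕ} (hp : p.Prime) (hp2 : p ≠ 2) (a : ℕ) (U : Finset ℕ)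
    (hU : ∀ x ∈ U, x.Prime ∧ x.Coprime p ∧ x ^ 2 < p ^ a) : SFam p a U := by
  refine ⟨fun y hy => (hU y hy).2.1, ?_, ?_, ?_, difLe_primes hp hp2 a U hU, ?_⟩
  · intro y hy
    have h1 := (hU y hy).2.2
    have h2 : y ≤ y ^ 2 := Nat.le_self_pow (by norm_num) _
    exact (lt_of_le_of_lt h2 h1).trans_le (Nat.pow_le_pow_right hp.pos (Nat.le_succ a))
  · intro N
    refine card_pairs_static hp hp2 a N _ ?_
    intro q hq
    rw [mem_filter, mem_product] at hq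
    obtain ⟨a1, a2, a3⟩ := hU _ hq.1.1
    obtain ⟨b1, b2, b3⟩ := hU _ hq.1.2
    exact ⟨a1, b1, a2, b2, a3, b3, hq.2⟩
  · intro N
    have h := card_single_le hp hp2 a a N (U.filter (fun z => Lg p a z = N)) (fun x hx => by
      rw [mem_filter] at hx
      exact ⟨(hU x hx.1).2.1, (hU x hx.1).2.2, hx.2⟩)
    rw [show (a - 2 * a) / 2 = 0 by omega, pow_zero, mul_one] at h
    exact h
  · have h1 : U ⊆ Icc 1 (Nat.sqrt (p ^ a)) := by
      intro y hy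
      obtain ⟨h2, _, h3⟩ := hU y hy
      rw [mem_Icc]
      exact ⟨h2.one_lt.le, Nat.le_sqrt'.2 h3.le⟩
    refine (card_le_card h1).trans ?_
    rw [Nat.card_Icc]
    omega

/-- the Erdős–Turán family -/
theorem sfam_sU {p : ℕ} (hp : p.Prime) (hp2 : p ≠ 2) (a : ℕ) : SFam p a (sU p a) := by
  have hp3 : 3 ≤ p := by
    have := hp.two_le
    omega
  have h := scode_sU hp hp2 a
  refine ⟨h.cop, h.lt, fun N => (h.sum N).trans (by omega), ?_, fun δ => (h.dif δ).trans (by omega),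
    ?_⟩
  · intro N
    refine (card_le_one.2 ?_).trans (by omega)
    intro x hx y hy
    rw [mem_filter] at hx hy
    unfold sU at hx hy
    split_ifs at hx hy with h8
    · obtain ⟨h1, h2, h3, _⟩ := rr_spec h8
      rcases fam_two hp hp2 h1 h2 h3 hx.1 hx.1 hy.1 hy.1 (by rw [hx.2, hy.2]) with
        ⟨h4, _⟩ | ⟨h4, _⟩ <;> exact h4
    · rw [mem_singleton] at hx hy
      rw [hx.1, hy.1]
  · unfold sU
    split_ifs with h8
    · obtain ⟨h1, h2, h3, _⟩ := rr_spec h8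
      rw [card_fam hp hp2 h1.pos h3, Nat.le_sqrt']
      exact le_trans (Nat.le_mul_of_pos_left _ (by norm_num)) h3
    · rw [card_singleton, Nat.le_sqrt']
      exact Nat.one_le_iff_ne_zero.2 (pow_pos hp.pos a).ne'

/-! ## vectors -/

variable {ι : Type*}

/-- vectors whose components are values of static families -/
def SAdm (p z : ι → ℕ) (Y : Finset (ι → ℕ)) : Prop :=
  ∃ U : ι → Finset ℕ, (∀ i, SFam (p i) (z i) (U i)) ∧ ∀ y ∈ Y, ∀ i, y i ∈ U i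

/-- vectors of primes -/
theorem sadm_of_adm {p z : ι → ℕ} (hp : ∀ i, (p i).Prime) (hp2 : ∀ i, p i ≠ 2)
    {Y : Finset (ι → ℕ)} (hY : Adm p z Y) : SAdm p z Y := by
  classical
  refine ⟨fun i => Y.image (fun y => y i), fun i => sfam_primes (hp i) (hp2 i) (z i) _ ?_,
    fun y hy i => mem_image_of_mem _ hy⟩
  intro x hx
  rw [mem_image] at hx
  obtain ⟨y, hy, rfl⟩ := hx
  exact hY y hy i

/-- vectors of values of given families -/
theorem sadm_piFinset [Fintype ι] [DecidableEq ι] {p z : ι → ℕ} {U : ι → Finset ℕ}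
    (hU : ∀ i, SFam (p i) (z i) (U i)) : SAdm p z (Fintype.piFinset U) :=
  ⟨U, hU, fun _ hy i => Fintype.mem_piFinset.1 hy i⟩

theorem sadm_sY [Fintype ι] [DecidableEq ι] {p : ι → ℕ} (hp : ∀ i, (p i).Prime)
    (hp2 : ∀ i, p i ≠ 2) (z : ι → ℕ) : SAdm p z (sY p z) :=
  sadm_piFinset (fun i => sfam_sU (hp i) (hp2 i) (z i))

theorem SAdm.mono {p z : ι → ℕ} {Y Y' : Finset (ι → ℕ)} (h : SAdm p z Y) (hY : Y' ⊆ Y) :
    SAdm p z Y' := by
  obtain ⟨U, hU, h1⟩ := h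
  exact ⟨U, hU, fun y hy => h1 y (hY hy)⟩

theorem SAdm.spec {p z : ι → ℕ} {Y : Finset (ι → ℕ)} (h : SAdm p z Y) {y : ι → ℕ} (hy : y ∈ Y)
    (i : ι) : (y i).Coprime (p i) ∧ y i < p i ^ (z i + 1) := by
  obtain ⟨U, hU, h1⟩ := h
  exact ⟨(hU i).cop _ (h1 y hy i), (hU i).lt _ (h1 y hy i)⟩

theorem SAdm.pairs {p z : ι → ℕ} {Y : Finset (ι → ℕ)} (h : SAdm p z Y) (i : ι)
    (t : ZMod (p i ^ z i)) (S : Finset (ℕ × ℕ))
    (hS : ∀ q ∈ S, (∃ y ∈ Y, y i = q.1) ∧ (∃ y ∈ Y, y i = q.2) ∧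
      Lg (p i) (z i) q.1 + Lg (p i) (z i) q.2 = t) : S.card ≤ 2 * (p i - 1) := by
  obtain ⟨U, hU, h1⟩ := h
  refine (hU i).pairs t S (fun q hq => ?_)
  obtain ⟨⟨y, hy, e⟩, ⟨y', hy', e'⟩, h2⟩ := hS q hq
  exact ⟨e ▸ h1 y hy i, e' ▸ h1 y' hy' i, h2⟩

theorem SAdm.single {p z : ι → ℕ} {Y : Finset (ι → ℕ)} (h : SAdm p z Y) (i : ι)
    (t : ZMod (p i ^ z i)) (S : Finset ℕ)
    (hS : ∀ q ∈ S, (∃ y ∈ Y, y i = q) ∧ Lg (p i) (z i) q = t) : S.card ≤ p i - 1 := by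
  obtain ⟨U, hU, h1⟩ := h
  refine (hU i).single t S (fun q hq => ?_)
  obtain ⟨⟨y, hy, e⟩, h2⟩ := hS q hq
  exact ⟨e ▸ h1 y hy i, h2⟩

theorem SAdm.card {p z : ι → ℕ} {Y : Finset (ι → ℕ)} (h : SAdm p z Y) (i : ι)
    (S : Finset ℕ) (hS : ∀ q ∈ S, ∃ y ∈ Y, y i = q) : S.card ≤ Nat.sqrt (p i ^ z i) := by
  obtain ⟨U, hU, h1⟩ := h
  refine (hU i).card_sub S (fun q hq => ?_)
  obtain ⟨y, hy, e⟩ := hS q hq
  exact e ▸ h1 y hy i

section dec

variable [Fintype ι] [DecidableEq ι]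

/-- pairs of vectors with given sums of the components -/
theorem card_code_pairs_sfam {p : ι → ℕ} (b : ι → ℕ) (U : ι → Finset ℕ)
    (hU : ∀ i, SFam (p i) (b i) (U i))
    (rk : ι → ℕ) (ρ ρ' : ∀ i, (ι → ℕ) → ZMod (p i ^ b i))
    (hρ : ∀ i x y, (∀ j, rk j < rk i → x j = y j) → ρ i x = ρ i y)
    (hρ' : ∀ i x y, (∀ j, rk j < rk i → x j = y j) → ρ' i x = ρ' i y)
    (c : ∀ i, ZMod (p i ^ b i)) (S : Finset (ι → ℕ × ℕ))
    (hS : ∀ g ∈ S, ∀ i, (g i).1 ∈ U i ∧ (g i).2 ∈ U i ∧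
      (Lg (p i) (b i) (g i).1 + ρ i (fun j => (g j).1)) +
        (Lg (p i) (b i) (g i).2 + ρ' i (fun j => (g j).2)) = c i) :
    S.card ≤ ∏ i, (2 * (p i - 1)) := by
  classical
  refine card_le_prod_of_rank rk _ S ?_
  intro f g hg
  refine (hU f).pairs (c f - ρ f (fun j => (g j).1) - ρ' f (fun j => (g j).2)) _ ?_
  intro z hz
  rw [Finset.mem_image] at hz
  obtain ⟨g', hg', rfl⟩ := hz
  rw [Finset.mem_filter] at hg'
  obtain ⟨h1, h2, h7⟩ := hS g' hg'.1 f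
  refine ⟨h1, h2, ?_⟩
  rw [← h7, hρ f (fun j => (g' j).1) (fun j => (g j).1) (fun j hj => by rw [hg'.2 j hj]),
    hρ' f (fun j => (g' j).2) (fun j => (g j).2) (fun j hj => by rw [hg'.2 j hj])]
  ring

/-- **Static decoding**, abstract families (replaces `dec_static`). -/
theorem dec_sadm {p : ι → ℕ} (hp : ∀ i, (p i).Prime) (hp2 : ∀ i, p i ≠ 2)
    (hinj : Function.Injective p)
    (M M' : ℕ) (hM : ∀ i, M.Coprime (p i)) (hM' : ∀ i, M'.Coprime (p i)) (rk : ι → ℕ)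
    (e e' z : ι → ℕ) (hze : ∀ i, z i ≤ e i) (hze' : ∀ i, z i ≤ e' i)
    (ρ : ∀ i, (ι → ℕ) → ZMod (p i ^ e i)) (ρ' : ∀ i, (ι → ℕ) → ZMod (p i ^ e' i))
    (hρ : ∀ i x y, (∀ j, rk j < rk i → x j = y j) → ρ i x = ρ i y)
    (hρ' : ∀ i x y, (∀ j, rk j < rk i → x j = y j) → ρ' i x = ρ' i y)
    (Y : Finset (ι → ℕ)) (hY : SAdm p z Y) :
    Dec Y Y (lc hp hinj M e ρ) (lc hp hinj M' e' ρ') (NN p z) (∏ i, (2 * (p i - 1))) := by
  classical
  obtain ⟨U, hU, hYU⟩ := hY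
  intro T
  set S := (Y ×ˢ Y).filter
    (fun q => (lc hp hinj M e ρ q.1 + lc hp hinj M' e' ρ' q.2) % NN p z = T % NN p z) with hSd
  set σ : ∀ i, (ι → ℕ) → ZMod (p i ^ z i) := fun i x =>
    ZMod.castHom (pow_dvd_pow (p i) (hze i)) (ZMod (p i ^ z i)) (ρ i x) with hσ
  set σ' : ∀ i, (ι → ℕ) → ZMod (p i ^ z i) := fun i x =>
    ZMod.castHom (pow_dvd_pow (p i) (hze' i)) (ZMod (p i ^ z i)) (ρ' i x) with hσ'
  have hσr : ∀ i x y, (∀ j, rk j < rk i → x j = y j) → σ i x = σ i y := fun i x y h => by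
    simp only [hσ]; rw [hρ i x y h]
  have hσr' : ∀ i x y, (∀ j, rk j < rk i → x j = y j) → σ' i x = σ' i y := fun i x y h => by
    simp only [hσ']; rw [hρ' i x y h]
  refine le_trans (card_le_card_of_injOn (fun t => zp t.1 t.2) (t := S.image
    (fun t => zp t.1 t.2)) ?_ ?_) ?_
  · intro t ht
    exact mem_coe.2 (mem_image_of_mem _ (mem_coe.1 ht))
  · intro t _ t' _ htt
    refine Prod.ext ?_ ?_
    · funext i
      exact congrArg Prod.fst (congrFun htt i)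
    · funext i
      exact congrArg Prod.snd (congrFun htt i)
  · refine card_code_pairs_sfam z U hU rk σ σ' hσr hσr' (fun i => ((T : ℕ) : ZMod (p i ^ z i))) _ ?_
    intro w hw i
    rw [mem_image] at hw
    obtain ⟨t, ht, rfl⟩ := hw
    rw [hSd, mem_filter, mem_product] at ht
    refine ⟨hYU _ ht.1.1 i, hYU _ ht.1.2 i, ?_⟩
    have h5 : (lc hp hinj M e ρ t.1 + lc hp hinj M' e' ρ' t.2) ≡ T [MOD NN p z] := ht.2
    have h6 := (ZMod.natCast_eq_natCast_iff _ _ _).2 (h5.of_dvd (pow_dvd_NN p z i))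
    rw [Nat.cast_add, lc_cast hp hp2 hinj _ hM e z hze ρ _ i ((hU i).cop _ (hYU _ ht.1.1 i)),
      lc_cast hp hp2 hinj _ hM' e' z hze' ρ' _ i ((hU i).cop _ (hYU _ ht.1.2 i))] at h6
    exact h6

/-- decoding of one code of one level (replaces `Helper75.T5.lc_dec`) -/
theorem lc_dec_sadm {p : ι → ℕ} (hp : ∀ i, (p i).Prime) (hp2 : ∀ i, p i ≠ 2)
    (hinj : Function.Injective p)
    (F : ℕ) (hF : ∀ i, F.Coprime (p i)) (z e : ι → ℕ) (hze : ∀ i, z i ≤ e i) (rk : ι → ℕ)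
    (ρ : ∀ i, (ι → ℕ) → ZMod (p i ^ e i))
    (hρ : ∀ i x y, (∀ j, rk j < rk i → x j = y j) → ρ i x = ρ i y)
    (Y : Finset (ι → ℕ)) (hY : SAdm p z Y) (T : ℕ) :
    (Y.filter (fun y => lc hp hinj F e ρ y ≡ T [MOD NN p z])).card ≤ ∏ i, (p i - 1) := by
  classical
  refine card_le_prod_of_rank rk (fun i => p i - 1) _ ?_
  intro f g hg
  set σ : (ι → ℕ) → ZMod (p f ^ z f) := fun y =>
    ZMod.castHom (pow_dvd_pow (p f) (hze f)) (ZMod (p f ^ z f)) (ρ f y) with hσ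
  refine hY.single f (((T : ℕ) : ZMod (p f ^ z f)) - σ g) _ ?_
  intro x hx
  rw [Finset.mem_image] at hx
  obtain ⟨g', hg', rfl⟩ := hx
  rw [Finset.mem_filter, Finset.mem_filter] at hg'
  obtain ⟨⟨h1, h2⟩, h3⟩ := hg'
  refine ⟨⟨g', h1, rfl⟩, ?_⟩
  have h4 := lc_cast hp hp2 hinj F hF e z hze ρ g' f (hY.spec h1 f).1
  have h5 := (ZMod.natCast_eq_natCast_iff _ _ _).2 (h2.of_dvd (pow_dvd_NN p z f))
  rw [h5] at h4
  have h6 : σ g' = σ g := by
    simp only [hσ]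
    rw [hρ f g' g h3]
  rw [h4, ← h6]
  simp only [hσ]
  ring

end dec

end Pool.Agent.Helper73.T5
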