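import Pool.Agent.Helper42.T5.MuA
import Pool.Agent.Helper42.T5.MuB
import Pool.Agent.Helper97.T5.FarStmt
import Pool.Agent.Helper57.T5.BotStmt
import Pool.Agent.Helper50.T5.Count
import Pool.Agent.Helper22.NEAR.Static
import Pool.Agent.Helper29.T5.Zero

/-!
# T5a: one set, all exponents (S1 + S2)

`one_set`: a set `A` with `r_A(n) ≤ C_ε (log n) ^ ε` for ALL `ε > 0` and
`|A ∩ [0, x)| ≥ √x / (C (log x) ^ 6)` for all large `x` off gaps `|log x - b j| < d log x`.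
-/

set_option autoImplicit false

namespace Pool.Agent.Helper73.T5

open Finset Pool.Agent.Helper27.T5 Pool.Agent.Helper42.T5 Pool.Agent.Helper42.T5.Pr

theorem far2 : Pool.Agent.Helper42.T5.FarStmt2 := by
  obtain ⟨E, k0, K0, C1, -, h⟩ := Pool.Agent.Helper97.T5.farStmt2
  exact ⟨E, k0, K0, C1, fun k' k hk' hkk l l' hl' hl hll hu hu' hD M _ hM hM' K hK hK' =>
    h k' k hk' hkk l l' hl' hl hll hu hu' hD M hM hM' K hK hK'⟩

theorem count3 (k : ℕ) : famA.Count 3 k :=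
  famA_count (Pool.Agent.Helper50.T5.count_all (k + 2) k le_rfl)

/-- **one set for all exponents** -/
theorem one_set : ∃ (A : Set ℕ) (b : ℕ → ℝ), (∀ j, 0 < b j ∧ 1.4 * b j ≤ b (j + 1)) ∧
      (∀ ε : ℝ, 0 < ε → ∃ C : ℝ, ∀ n : ℕ, 2 ≤ n →
        (({q : ℕ × ℕ | q.1 ∈ A ∧ q.2 ∈ A ∧ q.1 + q.2 = n}.ncard : ℕ) : ℝ) ≤
          C * (Real.log n) ^ ε) ∧
      (∃ C : ℝ, 0 < C ∧ ∀ d : ℝ, 0 < d → ∃ x0 : ℕ, ∀ x : ℕ, x0 ≤ x →
        (∀ j, d * Real.log x ≤ |Real.log x - b j|) →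
        Real.sqrt x / (C * (Real.log x) ^ 6) ≤ ((A ∩ Set.Iio x).ncard : ℝ)) ∧
      (∀ d : ℝ, 0 < d → ∃ C : ℝ, 0 < C ∧ ∀ x : ℕ, 2 ≤ x →
        (x : ℝ) ^ (1 / 2 - d) / C ≤ ((A ∩ Set.Iio x).ncard : ℝ)) := by
  obtain ⟨E1, k1, h1⟩ := same_of Pool.Agent.Helper57.T5.botStmt
    Pool.Agent.Helper22.NEAR.staticStmt Pool.Agent.Helper29.T5.zeroStmt far2.far
  obtain ⟨E2, k2, h2⟩ := famA_far far2
  exact mu_final_c famA (E := E1 + E2) (k0 := k1 + k2) (c := 3)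
    (fun k _ => famA_range (Pool.Agent.Helper97.T5.rangeStmt k))
    (fun k _ => count3 k) (fun k hk => (h1 k (by omega)).mono (by omega))
    (h2.mono (by omega) (by omega))

end Pool.Agent.Helper73.T5
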