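import Pool.Agent.Helper22.HW.Static
import Pool.Agent.Helper41.T5.Spike

/-!
# T5: static families without logarithmic loss

`sset r = {2 r k + (k^2 mod r) : k < r}` (Erdős–Turán), `r` an odd prime: all sums of two elements
are `< 4 r^2` and are different (up to order).  `sU p a`: the numbers `y < p^(a+1)` with
`Lg p a y ∈ sset r`, `y` a power of `1 + p`, where `4 r^2 ≤ p^a` and `r ≥ √(p^a) / 8`.

`SCode p a U C`: the abstract properties of a static family.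
-/

set_option autoImplicit false

namespace Pool.Agent.Helper73.T5

open Finset Pool.Agent.Helper27.T4 Pool.Agent.Helper3.T4 Pool.Agent.Helper22.HW
  Pool.Agent.Helper41.T5

/-! ## the set of Erdős and Turán -/

/-- the element `k` -/
def se (r k : ℕ) : ℕ := 2 * r * k + k ^ 2 % r

/-- the set -/
def sset (r : ℕ) : Finset ℕ := (range r).image (se r)

theorem se_div {r k l : ℕ} (hr : 0 < r) :
    (se r k + se r l) / (2 * r) = k + l ∧
      (se r k + se r l) % (2 * r) = k ^ 2 % r + l ^ 2 % r := by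
  have h1 := Nat.mod_lt (k ^ 2) hr
  have h2 := Nat.mod_lt (l ^ 2) hr
  have e : se r k + se r l = (k ^ 2 % r + l ^ 2 % r) + 2 * r * (k + l) := by
    unfold se; ring
  have h3 : k ^ 2 % r + l ^ 2 % r < 2 * r := by omega
  constructor
  · rw [e, Nat.add_mul_div_left _ _ (by omega), Nat.div_eq_of_lt h3, zero_add]
  · rw [e, Nat.add_mul_mod_self_left, Nat.mod_eq_of_lt h3]

theorem se_sum {r : ℕ} (hr : r.Prime) (hr2 : r ≠ 2) {k l k' l' : ℕ} (hk : k < r) (hl : l < r)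
    (hk' : k' < r) (hl' : l' < r) (h : se r k + se r l = se r k' + se r l') :
    (k = k' ∧ l = l') ∨ (k = l' ∧ l = k') := by
  have h1 := se_div (r := r) (k := k) (l := l) hr.pos
  have h2 := se_div (r := r) (k := k') (l := l') hr.pos
  rw [h] at h1
  have e1 : k + l = k' + l' := by rw [← h1.1, h2.1]
  have e2 : k ^ 2 % r + l ^ 2 % r = k' ^ 2 % r + l' ^ 2 % r := by rw [← h1.2, h2.2]
  have e3 : ((k : ℤ) ^ 2 + (l : ℤ) ^ 2 - ((k' : ℤ) ^ 2 + (l' : ℤ) ^ 2)) % (r : ℤ) = 0 := by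
    have e4 : (k ^ 2 + l ^ 2) % r = (k' ^ 2 + l' ^ 2) % r := by
      rw [Nat.add_mod, Nat.add_mod (k' ^ 2), e2]
    have e5 : ((k ^ 2 + l ^ 2 : ℕ) : ℤ) % (r : ℤ) = ((k' ^ 2 + l' ^ 2 : ℕ) : ℤ) % (r : ℤ) := by
      exact_mod_cast congrArg (fun n : ℕ => (n : ℤ)) e4
    have e6 := Int.emod_emod_of_dvd
    have e7 := Int.ModEq.sub (n := (r : ℤ)) e5 (Int.ModEq.refl ((k' ^ 2 + l' ^ 2 : ℕ) : ℤ))
    rw [sub_self] at e7
    have e8 : (((k ^ 2 + l ^ 2 : ℕ) : ℤ) - ((k' ^ 2 + l' ^ 2 : ℕ) : ℤ)) % (r : ℤ) = 0 % (r : ℤ) := e7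
    push_cast at e8
    rw [e8]
    simp
  have e9 : (r : ℤ) ∣ ((k : ℤ) - k') * (2 * ((k : ℤ) - l')) := by
    have h3 := Int.dvd_of_emod_eq_zero e3
    have h4 : (l : ℤ) = k' + l' - k := by
      have : (k : ℤ) + l = k' + l' := by exact_mod_cast e1
      linarith
    rw [h4] at h3
    convert h3 using 1
    ring
  have hrp : Prime (r : ℤ) := Nat.prime_iff_prime_int.1 hr
  have small : ∀ a b : ℕ, a < r → b < r → (r : ℤ) ∣ (a : ℤ) - b → a = b := by
    intro a b ha hb hd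
    have h5 : (a : ℤ) ≡ b [ZMOD r] := (Int.modEq_iff_dvd.2 (by
      rw [← neg_sub]; exact (dvd_neg).2 hd))
    have h6 : a ≡ b [MOD r] := (Int.natCast_modEq_iff).1 h5
    exact Nat.ModEq.eq_of_lt_of_lt h6 ha hb
  rcases hrp.dvd_or_dvd e9 with h3 | h3
  · left
    have := small _ _ hk hk' h3
    exact ⟨this, by omega⟩
  · rcases hrp.dvd_or_dvd h3 with h4 | h4
    · exfalso
      have h5 : r ∣ 2 := by exact_mod_cast h4
      exact hr2 ((Nat.prime_dvd_prime_iff_eq hr Nat.prime_two).1 h5)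
    · right
      have := small _ _ hk hl' h4
      exact ⟨this, by omega⟩

theorem se_inj {r k l : ℕ} (hr : 0 < r) (h : se r k = se r l) : k = l := by
  have h1 := (se_div (r := r) (k := k) (l := k) hr).1
  have h2 := (se_div (r := r) (k := l) (l := l) hr).1
  rw [h] at h1
  omega

theorem card_sset {r : ℕ} (hr : 0 < r) : (sset r).card = r := by
  unfold sset
  rw [card_image_of_injective _ (fun _ _ h => se_inj hr h), card_range]

theorem sset_lt {r s : ℕ} (hs : s ∈ sset r) : s < 2 * r ^ 2 := by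
  unfold sset at hs
  rw [mem_image] at hs
  obtain ⟨k, hk, rfl⟩ := hs
  rw [mem_range] at hk
  have h1 := Nat.mod_lt (k ^ 2) (by omega : 0 < r)
  unfold se
  have h2 : 2 * r * k + 2 * r ≤ 2 * r ^ 2 := by
    have : 2 * r * (k + 1) ≤ 2 * r * r := Nat.mul_le_mul_left _ hk
    nlinarith
  omega

theorem sset_sum {r : ℕ} (hr : r.Prime) (hr2 : r ≠ 2) {s t s' t' : ℕ} (hs : s ∈ sset r)
    (ht : t ∈ sset r) (hs' : s' ∈ sset r) (ht' : t' ∈ sset r) (h : s + t = s' + t') :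
    (s = s' ∧ t = t') ∨ (s = t' ∧ t = s') := by
  unfold sset at hs ht hs' ht'
  rw [mem_image] at hs ht hs' ht'
  obtain ⟨k, hk, rfl⟩ := hs
  obtain ⟨l, hl, rfl⟩ := ht
  obtain ⟨k', hk', rfl⟩ := hs'
  obtain ⟨l', hl', rfl⟩ := ht'
  rw [mem_range] at hk hl hk' hl'
  rcases se_sum hr hr2 hk hl hk' hl' h with ⟨h1, h2⟩ | ⟨h1, h2⟩
  · left; rw [h1, h2]; exact ⟨rfl, rfl⟩
  · right; rw [h1, h2]; exact ⟨rfl, rfl⟩

/-! ## abstract static families -/

/-- a static family: the numbers `y ∈ U` with the codes `Lg p a y` -/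
structure SCode (p a : ℕ) (U : Finset ℕ) (C : ℕ) : Prop where
  cop : ∀ y ∈ U, y.Coprime p
  lt : ∀ y ∈ U, y < p ^ (a + 1)
  sum : ∀ N : ZMod (p ^ a), ((U ×ˢ U).filter (fun z => Lg p a z.1 + Lg p a z.2 = N)).card ≤ C
  dif : DifLe (Lg p a) U C

/-- the exponent: `Lg (1+p)^(pw s) = s` -/
noncomputable def pw (p a s : ℕ) : ℕ :=
  ((s : ZMod (p ^ a)) * (((p - 1 : ℕ) : ZMod (p ^ a)))⁻¹).val

/-- the number with code `s` -/
noncomputable def yy (p a s : ℕ) : ℕ := ((1 + p : ZMod (p ^ (a + 1))) ^ pw p a s).val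

theorem yy_cast {p : ℕ} (hp : p.Prime) (a s : ℕ) :
    ((yy p a s : ℕ) : ZMod (p ^ (a + 1))) = (1 + p) ^ pw p a s := by
  have : NeZero (p ^ (a + 1)) := ⟨(pow_pos hp.pos _).ne'⟩
  unfold yy
  rw [ZMod.natCast_zmod_val]

theorem yy_cop {p : ℕ} (hp : p.Prime) (a s : ℕ) : (yy p a s).Coprime p := by
  have h1 : IsUnit ((yy p a s : ℕ) : ZMod (p ^ (a + 1))) := by
    rw [yy_cast hp]
    exact (isUnit_one_add p a).pow _
  rw [ZMod.isUnit_iff_coprime] at h1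
  exact Nat.Coprime.coprime_dvd_right (dvd_pow_self p (Nat.succ_ne_zero a)) h1

theorem yy_lt {p : ℕ} (hp : p.Prime) (a s : ℕ) : yy p a s < p ^ (a + 1) := by
  have : NeZero (p ^ (a + 1)) := ⟨(pow_pos hp.pos _).ne'⟩
  exact ZMod.val_lt _

theorem Lg_yy {p : ℕ} (hp : p.Prime) (hp2 : p ≠ 2) (a s : ℕ) :
    Lg p a (yy p a s) = (s : ZMod (p ^ a)) := by
  have : NeZero (p ^ a) := ⟨(pow_pos hp.pos _).ne'⟩
  rw [Lg_spec hp hp2 a _ (yy_cop hp a s), yy_cast hp, ← pow_mul, pow_eq_iff hp hp2]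
  have hu : IsUnit (((p - 1 : ℕ) : ZMod (p ^ a))) := by
    rw [ZMod.isUnit_iff_coprime]
    apply Nat.Coprime.pow_right
    have h1 := hp.two_le
    have h2 : (p - 1).Coprime (p - 1 + 1) := by simp
    rwa [Nat.sub_add_cancel (by omega)] at h2
  push_cast
  unfold pw
  rw [ZMod.natCast_zmod_val, mul_assoc, ZMod.inv_mul_of_unit _ hu, mul_one]

/-- the family with the codes `sset r` -/
noncomputable def fam (p a r : ℕ) : Finset ℕ := (sset r).image (yy p a)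

theorem yy_inj {p : ℕ} (hp : p.Prime) (hp2 : p ≠ 2) {a s t : ℕ} (hs : s < p ^ a) (ht : t < p ^ a)
    (h : yy p a s = yy p a t) : s = t := by
  have h1 := Lg_yy hp hp2 a s
  rw [h, Lg_yy hp hp2 a t] at h1
  have h2 := (ZMod.natCast_eq_natCast_iff _ _ _).1 h1
  exact (Nat.ModEq.eq_of_lt_of_lt h2 ht hs).symm

theorem card_fam {p : ℕ} (hp : p.Prime) (hp2 : p ≠ 2) {a r : ℕ} (hr : 0 < r)
    (h4 : 4 * r ^ 2 ≤ p ^ a) : (fam p a r).card = r := by
  unfold fam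
  rw [card_image_of_injOn, card_sset hr]
  intro s hs t ht h
  have h1 := sset_lt (mem_coe.1 hs)
  have h2 := sset_lt (mem_coe.1 ht)
  exact yy_inj hp hp2 (by omega) (by omega) h

theorem mem_fam {p : ℕ} (hp : p.Prime) (hp2 : p ≠ 2) {a r y : ℕ} (h4 : 4 * r ^ 2 ≤ p ^ a)
    (hy : y ∈ fam p a r) : ∃ s ∈ sset r, Lg p a y = (s : ZMod (p ^ a)) ∧ y = yy p a s := by
  unfold fam at hy
  rw [mem_image] at hy
  obtain ⟨s, hs, rfl⟩ := hy
  exact ⟨s, hs, Lg_yy hp hp2 a s, rfl⟩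

theorem fam_two {p : ℕ} (hp : p.Prime) (hp2 : p ≠ 2) {a r : ℕ} (hr : r.Prime) (hr2 : r ≠ 2)
    (h4 : 4 * r ^ 2 ≤ p ^ a) {x y x' y' : ℕ} (hx : x ∈ fam p a r) (hy : y ∈ fam p a r)
    (hx' : x' ∈ fam p a r) (hy' : y' ∈ fam p a r)
    (h : Lg p a x + Lg p a y = Lg p a x' + Lg p a y') :
    (x = x' ∧ y = y') ∨ (x = y' ∧ y = x') := by
  obtain ⟨s, hs, e1, rfl⟩ := mem_fam hp hp2 h4 hx
  obtain ⟨t, ht, e2, rfl⟩ := mem_fam hp hp2 h4 hy
  obtain ⟨s', hs', e3, rfl⟩ := mem_fam hp hp2 h4 hx'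
  obtain ⟨t', ht', e4, rfl⟩ := mem_fam hp hp2 h4 hy'
  rw [e1, e2, e3, e4] at h
  have l1 := sset_lt hs
  have l2 := sset_lt ht
  have l3 := sset_lt hs'
  have l4 := sset_lt ht'
  have h5 : s + t = s' + t' := by
    have h6 : ((s + t : ℕ) : ZMod (p ^ a)) = ((s' + t' : ℕ) : ZMod (p ^ a)) := by
      push_cast; exact h
    have h7 := (ZMod.natCast_eq_natCast_iff _ _ _).1 h6
    exact Nat.ModEq.eq_of_lt_of_lt h7 (by omega) (by omega)
  rcases sset_sum hr hr2 hs ht hs' ht' h5 with ⟨e5, e6⟩ | ⟨e5, e6⟩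
  · left; rw [e5, e6]; exact ⟨rfl, rfl⟩
  · right; rw [e5, e6]; exact ⟨rfl, rfl⟩

/-- **the family is a static family**, with constant 2 -/
theorem scode_fam {p : ℕ} (hp : p.Prime) (hp2 : p ≠ 2) {a r : ℕ} (hr : r.Prime) (hr2 : r ≠ 2)
    (h4 : 4 * r ^ 2 ≤ p ^ a) : SCode p a (fam p a r) 2 := by
  classical
  refine ⟨?_, ?_, ?_, ?_⟩
  · intro y hy
    obtain ⟨s, _, _, rfl⟩ := mem_fam hp hp2 h4 hy
    exact yy_cop hp a s
  · intro y hy
    obtain ⟨s, _, _, rfl⟩ := mem_fam hp hp2 h4 hy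
    exact yy_lt hp a s
  · intro N
    set D := (fam p a r ×ˢ fam p a r).filter (fun z => Lg p a z.1 + Lg p a z.2 = N) with hD
    rcases D.eq_empty_or_nonempty with he | ⟨z₀, hz₀⟩
    · rw [he]; simp
    have hsub : D ⊆ {z₀, (z₀.2, z₀.1)} := by
      intro z hz
      rw [hD, mem_filter, mem_product] at hz hz₀
      rcases fam_two hp hp2 hr hr2 h4 hz.1.1 hz.1.2 hz₀.1.1 hz₀.1.2 (by rw [hz.2, hz₀.2])
        with ⟨h1, h2⟩ | ⟨h1, h2⟩
      · rw [mem_insert]; left; exact Prod.ext h1 h2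
      · rw [mem_insert, mem_singleton]; right; exact Prod.ext h1 h2
    refine (card_le_card hsub).trans ?_
    exact (card_insert_le _ _).trans (by rw [card_singleton])
  · intro δ
    set D := (fam p a r ×ˢ fam p a r).filter (fun z => z.1 ≠ z.2 ∧ Lg p a z.1 - Lg p a z.2 = δ)
      with hD
    rcases D.eq_empty_or_nonempty with he | ⟨z₀, hz₀⟩
    · rw [he]; simp
    have hsub : D ⊆ {z₀} := by
      intro z hz
      rw [hD, mem_filter, mem_product] at hz hz₀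
      have h5 : Lg p a z.1 + Lg p a z₀.2 = Lg p a z₀.1 + Lg p a z.2 := by
        have h6 := hz.2.2
        have h7 := hz₀.2.2
        rw [← h7] at h6
        linear_combination h6
      rcases fam_two hp hp2 hr hr2 h4 hz.1.1 hz₀.1.2 hz₀.1.1 hz.1.2 h5 with ⟨h1, h2⟩ | ⟨h1, h2⟩
      · rw [mem_singleton]; exact Prod.ext h1 h2.symm
      · exact absurd h1 hz.2.1
    exact (card_le_card hsub).trans (by rw [card_singleton]; norm_num)

/-! ## size -/

/-- an odd prime `r` with `4 r^2 ≤ N` and `√N ≤ 8 r` -/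
theorem exists_r {N : ℕ} (hN : 2 ^ 8 ≤ N) :
    ∃ r : ℕ, r.Prime ∧ r ≠ 2 ∧ 4 * r ^ 2 ≤ N ∧ N ≤ 64 * r ^ 2 := by
  set n := Nat.sqrt N / 4 with hn
  have h1 : 16 ≤ Nat.sqrt N := by
    rw [Nat.le_sqrt]; omega
  have h2 : 4 ≤ n := by omega
  obtain ⟨r, hr, h3, h4⟩ := Nat.exists_prime_lt_and_le_two_mul n (by omega)
  refine ⟨r, hr, by omega, ?_, ?_⟩
  · have h5 : 2 * r ≤ Nat.sqrt N := by omega
    have h6 := Nat.sqrt_le' N
    have h7 : (2 * r) ^ 2 ≤ Nat.sqrt N ^ 2 := Nat.pow_le_pow_left h5 2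
    have h8 : (2 * r) ^ 2 = 4 * r ^ 2 := by ring
    omega
  · have h5 : Nat.sqrt N + 1 ≤ 8 * r := by omega
    have h6 := Nat.lt_succ_sqrt' N
    have h7 : (Nat.sqrt N).succ ^ 2 ≤ (8 * r) ^ 2 := Nat.pow_le_pow_left h5 2
    have h8 : (8 * r) ^ 2 = 64 * r ^ 2 := by ring
    omega

open Classical in
/-- the prime used for the modulus `p^a` -/
noncomputable def rr (N : ℕ) : ℕ := if h : 2 ^ 8 ≤ N then Classical.choose (exists_r h) else 0

theorem rr_spec {N : ℕ} (hN : 2 ^ 8 ≤ N) :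
    (rr N).Prime ∧ rr N ≠ 2 ∧ 4 * rr N ^ 2 ≤ N ∧ N ≤ 64 * rr N ^ 2 := by
  unfold rr
  rw [dif_pos hN]
  exact Classical.choose_spec (exists_r hN)

/-- **the static family** for the modulus `p^a` (`{1}` if `p^a` is small) -/
noncomputable def sU (p a : ℕ) : Finset ℕ := if 2 ^ 8 ≤ p ^ a then fam p a (rr (p ^ a)) else {1}

theorem scode_sU {p : ℕ} (hp : p.Prime) (hp2 : p ≠ 2) (a : ℕ) : SCode p a (sU p a) 2 := by
  unfold sU
  split_ifs with h
  · obtain ⟨h1, h2, h3, _⟩ := rr_spec h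
    exact scode_fam hp hp2 h1 h2 h3
  · refine ⟨?_, ?_, ?_, ?_⟩
    · intro y hy
      rw [mem_singleton] at hy
      subst hy
      exact Nat.coprime_one_left p
    · intro y hy
      rw [mem_singleton] at hy
      subst hy
      exact Nat.one_lt_pow (Nat.succ_ne_zero a) hp.one_lt
    · intro N
      refine (card_le_card (filter_subset _ _)).trans ?_
      rw [card_product, card_singleton]
      norm_num
    · intro δ
      refine (card_le_card (filter_subset _ _)).trans ?_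
      rw [card_product, card_singleton]
      norm_num

/-- **no logarithmic loss** -/
theorem card_sU {p : ℕ} (hp : p.Prime) (hp2 : p ≠ 2) (a : ℕ) :
    p ^ a ≤ 256 * (sU p a).card ^ 2 := by
  unfold sU
  split_ifs with h
  · obtain ⟨h1, h2, h3, h4⟩ := rr_spec h
    rw [card_fam hp hp2 h1.pos h3]
    omega
  · rw [card_singleton]
    omega

theorem sU_pos (p a : ℕ) (hp : p.Prime) (hp2 : p ≠ 2) : 0 < (sU p a).card := by
  by_contra h
  have h1 := card_sU hp hp2 a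
  have h2 : (sU p a).card = 0 := by omega
  rw [h2] at h1
  have := pow_pos hp.pos a
  omega

theorem sqrt_le_card_sU {p : ℕ} (hp : p.Prime) (hp2 : p ≠ 2) (a : ℕ) :
    Real.sqrt ((p : ℝ) ^ a) ≤ 16 * ((sU p a).card : ℝ) := by
  rw [Real.sqrt_le_left (by positivity)]
  have h1 := card_sU hp hp2 a
  have h2 : ((p ^ a : ℕ) : ℝ) ≤ ((256 * (sU p a).card ^ 2 : ℕ) : ℝ) := by exact_mod_cast h1
  push_cast at h2
  nlinarith

/-! ## vectors -/

variable {ι : Type*} [Fintype ι] [DecidableEq ι]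

/-- the vectors of static families -/
noncomputable def sY (p z : ι → ℕ) : Finset (ι → ℕ) := Fintype.piFinset (fun i => sU (p i) (z i))

theorem sqrt_le_card_sY {p : ι → ℕ} (hp : ∀ i, (p i).Prime) (hp2 : ∀ i, p i ≠ 2) (z : ι → ℕ) :
    Real.sqrt (((∏ i, p i ^ z i : ℕ) : ℝ)) ≤ 16 ^ Fintype.card ι * ((sY p z).card : ℝ) := by
  unfold sY
  rw [Fintype.card_piFinset]
  push_cast
  rw [Real.sqrt_prod _ (fun i _ => by positivity)]
  calc ∏ i, Real.sqrt ((p i : ℝ) ^ z i) ≤ ∏ i, (16 * ((sU (p i) (z i)).card : ℝ)) :=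
        Finset.prod_le_prod (fun i _ => Real.sqrt_nonneg _)
          (fun i _ => sqrt_le_card_sU (hp i) (hp2 i) (z i))
    _ = _ := by rw [Finset.prod_mul_distrib, Finset.prod_const, Finset.card_univ]

/-- pairs of vectors with given sums of the components -/
theorem card_code_pairs_s {p : ι → ℕ} (b : ι → ℕ) {C : ℕ} (U : ι → Finset ℕ)
    (hU : ∀ i, SCode (p i) (b i) (U i) C)
    (rk : ι → ℕ) (ρ ρ' : ∀ i, (ι → ℕ) → ZMod (p i ^ b i))
    (hρ : ∀ i x y, (∀ j, rk j < rk i → x j = y j) → ρ i x = ρ i y)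
    (hρ' : ∀ i x y, (∀ j, rk j < rk i → x j = y j) → ρ' i x = ρ' i y)
    (c : ∀ i, ZMod (p i ^ b i)) (S : Finset (ι → ℕ × ℕ))
    (hS : ∀ g ∈ S, ∀ i, (g i).1 ∈ U i ∧ (g i).2 ∈ U i ∧
      (Lg (p i) (b i) (g i).1 + ρ i (fun j => (g j).1)) +
        (Lg (p i) (b i) (g i).2 + ρ' i (fun j => (g j).2)) = c i) :
    S.card ≤ ∏ _i : ι, C := by
  classical
  refine card_le_prod_of_rank rk _ S ?_
  intro f g hg
  refine (card_le_card ?_).trans ((hU f).sum
    (c f - ρ f (fun j => (g j).1) - ρ' f (fun j => (g j).2)))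
  intro z hz
  rw [Finset.mem_image] at hz
  obtain ⟨g', hg', rfl⟩ := hz
  rw [Finset.mem_filter] at hg'
  obtain ⟨h1, h2, h7⟩ := hS g' hg'.1 f
  rw [mem_filter, mem_product]
  refine ⟨⟨h1, h2⟩, ?_⟩
  rw [← h7, hρ f (fun j => (g' j).1) (fun j => (g j).1) (fun j hj => by rw [hg'.2 j hj]),
    hρ' f (fun j => (g' j).2) (fun j => (g j).2) (fun j hj => by rw [hg'.2 j hj])]
  ring

/-- **Static decoding**, abstract families. -/
theorem dec_static_s {p : ι → ℕ} (hp : ∀ i, (p i).Prime) (hp2 : ∀ i, p i ≠ 2)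
    (hinj : Function.Injective p)
    (M M' : ℕ) (hM : ∀ i, M.Coprime (p i)) (hM' : ∀ i, M'.Coprime (p i)) (rk : ι → ℕ)
    (e e' z : ι → ℕ) (hze : ∀ i, z i ≤ e i) (hze' : ∀ i, z i ≤ e' i)
    (ρ : ∀ i, (ι → ℕ) → ZMod (p i ^ e i)) (ρ' : ∀ i, (ι → ℕ) → ZMod (p i ^ e' i))
    (hρ : ∀ i x y, (∀ j, rk j < rk i → x j = y j) → ρ i x = ρ i y)
    (hρ' : ∀ i x y, (∀ j, rk j < rk i → x j = y j) → ρ' i x = ρ' i y)
    (Y Y' : Finset (ι → ℕ)) {C : ℕ} (U : ι → Finset ℕ)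
    (hU : ∀ i, SCode (p i) (z i) (U i) C) (hY : ∀ y ∈ Y, ∀ i, y i ∈ U i)
    (hY' : ∀ y ∈ Y', ∀ i, y i ∈ U i) :
    Dec Y Y' (lc hp hinj M e ρ) (lc hp hinj M' e' ρ') (NN p z) (∏ _i : ι, C) := by
  classical
  intro T
  set S := (Y ×ˢ Y').filter
    (fun q => (lc hp hinj M e ρ q.1 + lc hp hinj M' e' ρ' q.2) % NN p z = T % NN p z) with hSd
  set σ : ∀ i, (ι → ℕ) → ZMod (p i ^ z i) := fun i x =>
    ZMod.castHom (pow_dvd_pow (p i) (hze i)) (ZMod (p i ^ z i)) (ρ i x) with hσ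
  set σ' : ∀ i, (ι → ℕ) → ZMod (p i ^ z i) := fun i x =>
    ZMod.castHom (pow_dvd_pow (p i) (hze' i)) (ZMod (p i ^ z i)) (ρ' i x) with hσ'
  have hσr : ∀ i x y, (∀ j, rk j < rk i → x j = y j) → σ i x = σ i y := fun i x y h => by
    simp only [hσ]; rw [hρ i x y h]
  have hσr' : ∀ i x y, (∀ j, rk j < rk i → x j = y j) → σ' i x = σ' i y := fun i x y h => by
    simp only [hσ']; rw [hρ' i x y h]
  refine le_trans (card_le_card_of_injOn (fun t => zp t.1 t.2) (t := S.image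
    (fun t => zp t.1 t.2)) ?_ ?_) ?_
  · intro t ht
    exact mem_coe.2 (mem_image_of_mem _ (mem_coe.1 ht))
  · intro t _ t' _ htt
    refine Prod.ext ?_ ?_
    · funext i
      exact congrArg Prod.fst (congrFun htt i)
    · funext i
      exact congrArg Prod.snd (congrFun htt i)
  · refine card_code_pairs_s z U hU rk σ σ' hσr hσr' (fun i => ((T : ℕ) : ZMod (p i ^ z i))) _ ?_
    intro w hw i
    rw [mem_image] at hw
    obtain ⟨t, ht, rfl⟩ := hw
    rw [hSd, mem_filter, mem_product] at ht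
    refine ⟨hY _ ht.1.1 i, hY' _ ht.1.2 i, ?_⟩
    have h5 : (lc hp hinj M e ρ t.1 + lc hp hinj M' e' ρ' t.2) ≡ T [MOD NN p z] := ht.2
    have h6 := (ZMod.natCast_eq_natCast_iff _ _ _).2 (h5.of_dvd (pow_dvd_NN p z i))
    rw [Nat.cast_add, lc_cast hp hp2 hinj _ hM e z hze ρ _ i ((hU i).cop _ (hY _ ht.1.1 i)),
      lc_cast hp hp2 hinj _ hM' e' z hze' ρ' _ i ((hU i).cop _ (hY' _ ht.1.2 i))] at h6
    exact h6

end Pool.Agent.Helper73.T5
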